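import Mathlib

namespace Pool.Agent.Results.MP_308f9e_co.Counter

open Finset Polynomial

section Defs

variable {P : Type} [PartialOrder P] [Fintype P] [DecidableEq P] [DecidableLE P]

/-- `P` has a least element and every maximal interval is a Boolean lattice of rank `n`;
`rk y` is the rank of `y`, i.e. `[0, y]` is a Boolean lattice of rank `rk y`. -/
def IsSimplicial (n : ℕ) (rk : P → ℕ) : Prop :=
  (∃ z : P, ∀ y, z ≤ y) ∧ (∀ m : P, IsMax m → Nonempty (Set.Iic m ≃o Finset (Fin n))) ∧
    ∀ y : P, Nonempty (Set.Iic y ≃o Finset (Fin (rk y)))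

/-- Flag `f`-vector of `P` with a top adjoined: chains whose set of ranks is exactly `T`. -/
def alpha (rk : P → ℕ) (T : Finset ℕ) : ℤ :=
  ((univ : Finset (Finset P)).filter
    (fun C => (∀ x ∈ C, ∀ y ∈ C, x ≤ y ∨ y ≤ x) ∧ C.image rk = T)).card

/-- Flag `h`-vector. -/
def beta (rk : P → ℕ) (S : Finset ℕ) : ℤ :=
  ∑ T ∈ S.powerset, (-1) ^ (S \ T).card * alpha rk T

/-- The augmented Chow polynomial. -/
noncomputable def Haug (n : ℕ) (rk : P → ℕ) : ℝ[X] :=
  ∑ S ∈ (Icc 1 n).powerset.filter (fun S => ∀ i ∈ S, i + 1 ∉ S),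
    C ((beta rk S : ℤ) : ℝ) * X ^ S.card * (1 + X) ^ (n + 1 - 2 * S.card)

end Defs

/-- Two disjoint triangles: faces are subsets of `{0,1,2}` or of `{3,4,5}`. -/
def T : Type := {s : Finset (Fin 6) // s ⊆ {0, 1, 2} ∨ s ⊆ {3, 4, 5}}

instance : PartialOrder T := inferInstanceAs (PartialOrder (Subtype _))
instance : DecidableEq T := inferInstanceAs (DecidableEq (Subtype _))
instance : Fintype T := inferInstanceAs (Fintype (Subtype _))
instance : DecidableLE T := fun x y => inferInstanceAs (Decidable (x.1 ⊆ y.1))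

def rk (x : T) : ℕ := x.1.card

noncomputable def iso (y : T) : Set.Iic y ≃o Finset (Fin (rk y)) :=
  let e : y.1 ≃ Fin (rk y) := y.1.equivFin
  { toFun := fun x => univ.filter (fun i => (e.symm i).1 ∈ x.1.1)
    invFun := fun s => ⟨⟨s.image (fun i => (e.symm i).1), by
      have h : s.image (fun i => (e.symm i).1) ⊆ y.1 := by
        intro a ha
        obtain ⟨i, -, rfl⟩ := mem_image.1 ha
        exact (e.symm i).2
      exact y.2.imp h.trans h.trans⟩, by
      intro a ha
      obtain ⟨i, -, rfl⟩ := mem_image.1 ha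
      exact (e.symm i).2⟩
    left_inv := by
      intro x
      apply Subtype.ext
      apply Subtype.ext
      ext a
      simp only [mem_image, mem_filter, mem_univ, true_and]
      constructor
      · rintro ⟨i, hi, rfl⟩; exact hi
      · intro ha
        exact ⟨e ⟨a, x.2 ha⟩, by simpa using ha, by simp⟩
    right_inv := by
      intro s
      ext i
      simp only [mem_image, mem_filter, mem_univ, true_and]
      constructor
      · rintro ⟨j, hj, h⟩
        rwa [← e.symm.injective (Subtype.ext h)]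
      · exact fun h => ⟨i, h, rfl⟩
    map_rel_iff' := by
      intro x x'
      constructor
      · intro h a ha
        have : e ⟨a, x.2 ha⟩ ∈ univ.filter (fun i => (e.symm i).1 ∈ x'.1.1) :=
          h (by simpa using ha)
        simpa using this
      · intro h i hi
        simp only [Equiv.coe_fn_mk, mem_filter, mem_univ, true_and] at hi ⊢
        exact h hi }

lemma max_rk : ∀ m : T, (∀ b : T, m ≤ b → b ≤ m) → rk m = 3 := by decide +kernel

lemma simpl : IsSimplicial 3 rk := by
  refine ⟨⟨⟨∅, by simp⟩, fun y => empty_subset _⟩, fun m hm => ?_, fun y => ⟨iso y⟩⟩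
  have := max_rk m (fun b hb => hm hb)
  rw [← this]
  exact ⟨iso m⟩

lemma alpha_eq (S : Finset ℕ) : alpha rk S = (((univ : Finset T).powersetCard S.card).filter
    (fun C => (∀ x ∈ C, ∀ y ∈ C, x ≤ y ∨ y ≤ x) ∧ C.image rk = S)).card := by
  rw [alpha]
  congr 2
  ext C
  simp only [mem_filter, mem_univ, true_and, mem_powersetCard, subset_univ]
  refine ⟨fun h => ⟨?_, h⟩, fun h => h.2⟩
  rw [← h.2, card_image_of_injOn]
  intro x hx y hy hxy
  apply Subtype.ext
  rcases h.1 x hx y hy with h' | h'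
  · exact eq_of_subset_of_card_le h' hxy.ge
  · exact (eq_of_subset_of_card_le h' hxy.le).symm

lemma a0 : alpha rk ∅ = 1 := by rw [alpha_eq]; decide +kernel
lemma a1 : alpha rk {1} = 6 := by rw [alpha_eq]; decide +kernel
lemma a2 : alpha rk {2} = 6 := by rw [alpha_eq]; decide +kernel
lemma a3 : alpha rk {3} = 2 := by rw [alpha_eq]; decide +kernel
lemma a13 : alpha rk {1, 3} = 6 := by rw [alpha_eq]; decide +kernel

lemma beta_one (i : ℕ) : beta rk {i} = alpha rk {i} - 1 := by
  have h : ({i} : Finset ℕ).powerset = {∅, {i}} := by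
    ext s; simp [subset_singleton_iff]
  rw [beta, h, sum_pair (singleton_ne_empty i).symm, a0]
  simp; ring

lemma betas : beta rk ∅ = 1 ∧ beta rk {1} = 5 ∧ beta rk {2} = 5 ∧ beta rk {3} = 1 ∧
    beta rk {1, 3} = -1 := by
  refine ⟨by simp [beta, a0], by rw [beta_one, a1]; rfl, by rw [beta_one, a2]; rfl,
    by rw [beta_one, a3]; rfl, ?_⟩
  have h : ({1, 3} : Finset ℕ).powerset = {∅, {1}, {3}, {1, 3}} := by decide
  rw [beta, h, sum_insert (by decide), sum_insert (by decide), sum_pair (by decide), a0, a1, a3,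
    a13]
  decide

lemma Haug_eq : Haug 3 rk = X ^ 4 + C 15 * X ^ 3 + C 27 * X ^ 2 + C 15 * X + 1 := by
  have h : (Icc 1 3).powerset.filter (fun S : Finset ℕ => ∀ i ∈ S, i + 1 ∉ S) =
      {∅, {1}, {2}, {3}, {1, 3}} := by decide
  obtain ⟨b0, b1, b2, b3, b4⟩ := betas
  rw [Haug, h, sum_insert (by decide), sum_insert (by decide), sum_insert (by decide),
    sum_pair (by decide), b0, b1, b2, b3, b4]
  simp only [card_empty, card_singleton, show ({1, 3} : Finset ℕ).card = 2 from rfl]
  push_cast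
  simp only [map_one, map_neg, map_ofNat]
  ring

theorem result : ∃ (P : Type) (_ : PartialOrder P) (_ : Fintype P) (_ : DecidableEq P)
    (_ : DecidableLE P) (n : ℕ) (rk : P → ℕ), 1 ≤ n ∧ IsSimplicial n rk ∧
    ∃ z : ℂ, aeval z (Haug n rk) = 0 ∧ z.im ≠ 0 := by
  refine ⟨T, inferInstance, inferInstance, inferInstance, inferInstance, 3, rk, by norm_num,
    simpl, ?_⟩
  rw [Haug_eq]
  set r : ℝ := Real.sqrt 5 with hr
  have r2 : r ^ 2 = 5 := Real.sq_sqrt (by norm_num)
  have r0 : 0 < r := Real.sqrt_pos.2 (by norm_num)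
  set a : ℝ := (-15 + 5 * r) / 4 with ha
  have r3 : 11 / 5 < r := by nlinarith
  have r4 : r < 3 := by nlinarith
  have a1 : 0 < 1 - a ^ 2 := by
    have h1 : -1 < a := by rw [ha]; linarith
    have h2 : a < 1 := by rw [ha]; linarith
    nlinarith
  set b : ℝ := Real.sqrt (1 - a ^ 2) with hb
  have b2 : b ^ 2 = 1 - a ^ 2 := Real.sq_sqrt a1.le
  refine ⟨a + b * Complex.I, ?_, by simpa using (Real.sqrt_pos.2 a1).ne'⟩
  have q : ((a : ℂ) + b * Complex.I) ^ 2 - 2 * a * (a + b * Complex.I) + 1 = 0 := by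
    have : (b : ℂ) ^ 2 = 1 - a ^ 2 := by exact_mod_cast b2
    linear_combination (b : ℂ) ^ 2 * Complex.I_sq - this
  have w : (4 * (a : ℂ) ^ 2 + 30 * a + 25) = 0 := by
    have : 4 * a ^ 2 + 30 * a + 25 = 0 := by rw [ha]; nlinarith
    exact_mod_cast this
  generalize (a : ℂ) + b * Complex.I = z at q
  simp only [map_add, map_mul, map_pow, aeval_X, aeval_C, map_one]
  simp only [eq_ratCast, map_ofNat]
  linear_combination (z ^ 2 + (15 + 2 * (a : ℂ)) * z + 1) * q + z ^ 2 * w

end Pool.Agent.Results.MP_308f9e_co.Counter
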